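import Mathlib

/-!
# GK/E6: bound for `(1 - η Y) ^ (-s / η)` (after `Pool.Agent.N73.LS.Ebound5` of helper73)
-/

set_option autoImplicit false

namespace Pool.Agent.N318.GK

/-- the coefficient of the cube -/
noncomputable def k3 (η s : ℝ) : ℝ := s * (s + η) * (s + 2 * η) / 6 + 3 / 1000

theorem k3_bd {η s : ℝ} (hη0 : 0 < η) (hη1 : η ≤ 1 / 6) (hs0 : 0 ≤ s)
    (hs1 : 2 * s + η ≤ 1) : 0 ≤ k3 η s ∧ k3 η s * (s + 3 * η) ≤ 31 / 1000 := by
  have h0 : 0 ≤ k3 η s := by unfold k3; positivity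
  refine ⟨h0, ?_⟩
  obtain ⟨r, hr⟩ : ∃ r, r = 1 / 2 - η / 2 := ⟨_, rfl⟩
  have h1 : s ≤ r := by rw [hr]; linarith
  have hr0 : 0 ≤ r := by linarith
  have h2 : k3 η s ≤ k3 η r := by unfold k3; gcongr
  have h3 : k3 η s * (s + 3 * η) ≤ k3 η r * (r + 3 * η) := by
    have : 0 ≤ k3 η r := h0.trans h2
    gcongr
  refine h3.trans ?_
  unfold k3
  rw [hr]
  obtain ⟨w, hw⟩ : ∃ w, w = 6 * η := ⟨_, rfl⟩
  have e1 : η = w / 6 := by rw [hw]; ring
  have h4 : 0 ≤ w := by rw [hw]; linarith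
  have h5 : 0 ≤ 1 - w := by rw [hw]; linarith
  rw [e1]
  have h6 : 0 ≤ w * (1 - w) := mul_nonneg h4 h5
  have h7 : 0 ≤ w ^ 2 * (1 - w) := by positivity
  have h8 : 0 ≤ w ^ 3 * (1 - w) := by positivity
  have h9 : 0 ≤ w ^ 2 := by positivity
  nlinarith

/-- E6 -/
theorem Ebound6 {Y η s : ℝ} (hY0 : 0 ≤ Y) (hY1 : Y ≤ 5 / 24) (hη0 : 0 < η) (hη1 : η ≤ 1 / 6)
    (hs0 : 0 ≤ s) (hs1 : 2 * s + η ≤ 1) :
    (1 - η * Y) ^ (-(s / η)) ≤ 1 + s * Y + s * (s + η) / 2 * Y ^ 2 +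
      (s * (s + η) * (s + 2 * η) / 6 + 3 / 1000) * Y ^ 3 := by
  obtain ⟨hk0, hk1⟩ := k3_bd hη0 hη1 hs0 hs1
  have hpos : ∀ y ∈ Set.Icc (0:ℝ) (5 / 24), 0 < 1 - η * y := by
    intro y hy
    have : η * y ≤ 1 / 6 * (5 / 24) := by
      apply mul_le_mul hη1 hy.2 hy.1 (by norm_num)
    linarith
  have hder : ∀ y ∈ Set.Icc (0:ℝ) (5 / 24), HasDerivAt
      (fun y : ℝ => (1 + s * y + s * (s + η) / 2 * y ^ 2 + k3 η s * y ^ 3) *
        (1 - η * y) ^ (s / η))
      ((9 / 1000 * y ^ 2 - k3 η s * (s + 3 * η) * y ^ 3) * (1 - η * y) ^ (s / η - 1)) y := by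
    intro y hy
    have hp := hpos y hy
    have h1 : HasDerivAt (fun y : ℝ => 1 + s * y + s * (s + η) / 2 * y ^ 2 + k3 η s * y ^ 3)
        (s + s * (s + η) * y + 3 * k3 η s * y ^ 2) y := by
      have a1 := (hasDerivAt_id y).const_mul s
      have a2 := (hasDerivAt_pow 2 y).const_mul (s * (s + η) / 2)
      have a3 := (hasDerivAt_pow 3 y).const_mul (k3 η s)
      have a := ((a1.const_add 1).add a2).add a3
      have e : s + s * (s + η) * y + 3 * k3 η s * y ^ 2 =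
          s * 1 + s * (s + η) / 2 * ((2:ℕ) * y ^ (2 - 1)) + k3 η s * ((3:ℕ) * y ^ (3 - 1)) := by
        norm_num; ring
      rw [e]
      exact a
    have h2 : HasDerivAt (fun y : ℝ => (1 - η * y) ^ (s / η))
        (-s * (1 - η * y) ^ (s / η - 1)) y := by
      have b1 : HasDerivAt (fun y : ℝ => 1 - η * y) (-η) y := by
        have := ((hasDerivAt_id y).const_mul η).const_sub 1
        simpa using this
      have b2 := b1.rpow_const (p := s / η) (Or.inl hp.ne')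
      have e : -s * (1 - η * y) ^ (s / η - 1) = -η * (s / η) * (1 - η * y) ^ (s / η - 1) := by
        congr 1
        field_simp
      rw [e]; exact b2
    have h3 := h1.mul h2
    have e1 : (1 - η * y) ^ (s / η) = (1 - η * y) ^ (s / η - 1) * (1 - η * y) := by
      rw [Real.rpow_sub_one hp.ne']
      field_simp
    have e2 : (9 / 1000 * y ^ 2 - k3 η s * (s + 3 * η) * y ^ 3) * (1 - η * y) ^ (s / η - 1) =
        (s + s * (s + η) * y + 3 * k3 η s * y ^ 2) * (1 - η * y) ^ (s / η) +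
        (1 + s * y + s * (s + η) / 2 * y ^ 2 + k3 η s * y ^ 3) *
          (-s * (1 - η * y) ^ (s / η - 1)) := by
      rw [e1]
      unfold k3
      ring
    rw [e2]
    exact h3
  have hmono : MonotoneOn (fun y : ℝ => (1 + s * y + s * (s + η) / 2 * y ^ 2 + k3 η s * y ^ 3) *
        (1 - η * y) ^ (s / η)) (Set.Icc 0 (5 / 24)) := by
    apply monotoneOn_of_deriv_nonneg (convex_Icc 0 (5 / 24))
    · intro y hy
      exact (hder y hy).continuousAt.continuousWithinAt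
    · intro y hy
      rw [interior_Icc] at hy
      exact (hder y ⟨hy.1.le, hy.2.le⟩).differentiableAt.differentiableWithinAt
    · intro y hy
      rw [interior_Icc] at hy
      rw [(hder y ⟨hy.1.le, hy.2.le⟩).deriv]
      apply mul_nonneg
      · have h1 : k3 η s * (s + 3 * η) * y ^ 3 ≤ 31 / 1000 * y ^ 3 := by
          have := hy.1
          gcongr
        have h2 : y ^ 3 ≤ 5 / 24 * y ^ 2 := by
          have h3 : y ^ 2 * y ≤ y ^ 2 * (5 / 24) := mul_le_mul_of_nonneg_left hy.2.le (sq_nonneg y)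
          calc y ^ 3 = y ^ 2 * y := by ring
            _ ≤ y ^ 2 * (5 / 24) := h3
            _ = 5 / 24 * y ^ 2 := by ring
        linarith [sq_nonneg y]
      · exact Real.rpow_nonneg (hpos y ⟨hy.1.le, hy.2.le⟩).le _
  have h := hmono (a := 0) ⟨le_refl _, by norm_num⟩ ⟨hY0, hY1⟩ hY0
  simp only [mul_zero, add_zero, sub_zero, Real.one_rpow, mul_one, ne_eq, OfNat.ofNat_ne_zero,
    not_false_eq_true, zero_pow] at h
  have hp := hpos Y ⟨hY0, hY1⟩
  rw [Real.rpow_neg hp.le]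
  have hq : 0 < (1 - η * Y) ^ (s / η) := Real.rpow_pos_of_pos hp _
  rw [inv_le_iff_one_le_mul₀ hq]
  exact h

end Pool.Agent.N318.GK
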